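import Pool.Agent.Helper20.Griff.Goals

/-! Packet G-A6: the value of the pairing. -/

open MvPolynomial Pool.Agent.Helper94.Griff Pool.Agent.Helper20.Griff

namespace Pool.Agent.Helper17.GriffCE

section comm

variable {σ : Type*} [DecidableEq σ]

theorem pderiv_comm (i j : σ) (f : MvPolynomial σ ℂ) :
    pderiv i (pderiv j f) = pderiv j (pderiv i f) := by
  have h : ⁅(pderiv i : Derivation ℂ (MvPolynomial σ ℂ) (MvPolynomial σ ℂ)),
      (pderiv j : Derivation ℂ (MvPolynomial σ ℂ) (MvPolynomial σ ℂ))⁆ = 0 := by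
    apply MvPolynomial.derivation_ext
    intro k
    simp only [Derivation.commutator_apply, pderiv_X, Derivation.coe_zero, Pi.zero_apply]
    have h1 : ∀ a b : σ, pderiv a (Pi.single (M := fun _ => MvPolynomial σ ℂ) b 1 k) = 0 := by
      intro a b
      by_cases h : b = k
      · subst h; simp
      · rw [Pi.single_eq_of_ne (Ne.symm h), map_zero]
    rw [h1, h1, sub_zero]
  have h2 := congrArg (fun D => D f) h
  simp only [Derivation.commutator_apply, Derivation.coe_zero, Pi.zero_apply] at h2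
  exact sub_eq_zero.1 h2

end comm

/-- substitution of zero for the second block of variables -/
noncomputable def ev : MvPolynomial (Fin 15 ⊕ Fin 15) ℂ →ₐ[ℂ] MvPolynomial (Fin 15) ℂ :=
  aeval (Sum.elim X (fun _ => 0))

theorem ev_inl (i : Fin 15) : ev (X (Sum.inl i)) = X i := by simp [ev]

theorem ev_inr (i : Fin 15) : ev (X (Sum.inr i)) = 0 := by simp [ev]

theorem ev_pderiv (i : Fin 15) (f : MvPolynomial (Fin 15 ⊕ Fin 15) ℂ) :
    ev (pderiv (Sum.inl i) f) = pderiv i (ev f) := by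
  induction f using MvPolynomial.induction_on with
  | C a => simp [ev]
  | add f g hf hg => simp only [map_add, hf, hg]
  | mul_X f k hf =>
    rw [Derivation.leibniz, map_add, map_mul ev f, Derivation.leibniz]
    simp only [smul_eq_mul, map_mul, hf, pderiv_X]
    congr 2
    rcases k with k | k
    · rw [ev_inl, pderiv_X]
      by_cases h : i = k
      · subst h; simp
      · have h' : (Sum.inl i : Fin 15 ⊕ Fin 15) ≠ Sum.inl k := fun e => h (Sum.inl.inj e)
        simp [h, h']
    · rw [ev_inr]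
      simp

theorem constantCoeff_ev (f : MvPolynomial (Fin 15 ⊕ Fin 15) ℂ) :
    constantCoeff f = constantCoeff (ev f) := by
  induction f using MvPolynomial.induction_on with
  | C a => simp [ev]
  | add f g hf hg => simp only [map_add, hf, hg]
  | mul_X f k hf =>
    rw [map_mul, map_mul, map_mul, constantCoeff_X, mul_zero]
    rcases k with k | k
    · rw [ev_inl, constantCoeff_X, mul_zero]
    · rw [ev_inr, map_zero, mul_zero]

theorem ev_cubOp (f : MvPolynomial (Fin 15 ⊕ Fin 15) ℂ) :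
    ev (cubOp (fun i g => pderiv (Sum.inl i) g) f) = cubOp (fun i g => pderiv i g) (ev f) := by
  simp only [cubOp, map_add, map_sub, ev_pderiv]

section alg

variable {R : Type*} [CommRing R]

theorem cub_reflect (x : Fin 15 → R) : cub (reflect x) = e₁ x * e₂ x - cub x := by
  simp only [cub, reflect, e₁, e₂, Matrix.cons_val]
  ring

theorem sum_sharp_reflect (x : Fin 15 → R) :
    ∑ i, x i * sharp (reflect x) i = e₁ x ^ 3 - 2 * (e₁ x * e₂ x) + 3 * cub x := by
  simp only [Fin.sum_univ_succ, cub, reflect, sharp, e₁, e₂, Matrix.cons_val]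
  simp
  ring

theorem sum_sharp (x : Fin 15 → R) :
    ∑ i, sharp x i * reflect x i = e₁ x * e₂ x - 3 * cub x := by
  simp only [Fin.sum_univ_succ, cub, reflect, sharp, e₁, e₂, Matrix.cons_val]
  simp
  ring

end alg

/-- a derivation over the integers from an additive map with the product rule -/
def mkD {S : Type} [CommRing S] (f : S → S) (ha : ∀ a b, f (a + b) = f a + f b)
    (hl : ∀ a b, f (a * b) = a * f b + b * f a) : Derivation ℤ S S :=
  Derivation.mk' ((AddMonoidHom.mk' f ha).toIntLinearMap) (fun a b => by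
    simpa [smul_eq_mul] using hl a b)

theorem mkD_apply {S : Type} [CommRing S] (f : S → S) (ha : ∀ a b, f (a + b) = f a + f b)
    (hl : ∀ a b, f (a * b) = a * f b + b * f a) (x : S) : mkD f ha hl x = f x := rfl

/-- the iterated operator -/
noncomputable def DD : MvPolynomial (Fin 15) ℂ →+ MvPolynomial (Fin 15) ℂ where
  toFun f := cubOp (fun i g => pderiv i g) (cubOp (fun i g => pderiv i g) f)
  map_zero' := by simp [cubOp]
  map_add' f g := by
    simp only [cubOp, map_add, map_sub]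
    ring

theorem ev_reflect (i : Fin 15) :
    ev (reflect (fun j => X (Sum.inl j)) i + X (Sum.inr i)) = reflect X i := by
  rw [map_add, ev_inr, add_zero]
  fin_cases i <;> simp [reflect, ev_inl]

theorem ev_cub (v : Fin 15 → MvPolynomial (Fin 15 ⊕ Fin 15) ℂ) :
    ev (cub v) = cub (fun i => ev (v i)) := by
  simp only [cub, map_add, map_sub, map_mul]

theorem ev_sharp (v : Fin 15 → MvPolynomial (Fin 15 ⊕ Fin 15) ℂ) (i : Fin 15) :
    ev (sharp v i) = sharp (fun i => ev (v i)) i := by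
  fin_cases i <;> simp [sharp]

theorem expand {P : Type*} [CommRing P] (a b c : P) :
    720 * ((a * b - c) ^ 2 + c ^ 2)
        + 48 * ((a ^ 3 - 2 * (a * b) + 3 * c) ^ 2 + (a * b - 3 * c) ^ 2)
        + 7296 * ((a * b - c) * c)
        + 576 * ((a * b - c) * (a ^ 3 - 2 * (a * b) + 3 * c) + (a * b - 3 * c) * c)
        + 992 * ((a * b - c) * (a * b - 3 * c) + (a ^ 3 - 2 * (a * b) + 3 * c) * c)
        + 128 * ((a ^ 3 - 2 * (a * b) + 3 * c) * (a * b - 3 * c)) =
      (48 : ℤ) • a ^ 6 + (512 : ℤ) • (a ^ 4 * b) + (320 : ℤ) • (a ^ 3 * c)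
        + (544 : ℤ) • (a ^ 2 * b ^ 2) + (3648 : ℤ) • (a * b * c) + (-3648 : ℤ) • c ^ 2 := by
  simp only [zsmul_eq_mul]
  push_cast
  ring

theorem K_inst (hK : StmtK) (S : Type) [CommRing S] (d : Fin 15 → S → S)
    (ha : ∀ i a b, d i (a + b) = d i a + d i b)
    (hl : ∀ i a b, d i (a * b) = a * d i b + b * d i a)
    (hc : ∀ i j f, d i (d j f) = d j (d i f))
    (z w : Fin 15 → S) (hz : ∀ i j, d i (z j) = if i = j then 1 else 0)
    (hw : ∀ i j, d i (w j) = if i = j then 1 else 0) :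
    cubOp d (cubOp d (cub z ^ 2 * cub w ^ 2)) =
        720 * (cub w ^ 2 + cub z ^ 2)
        + 48 * ((∑ i, z i * sharp w i) ^ 2 + (∑ i, sharp z i * w i) ^ 2)
        + 7296 * (cub w * cub z)
        + 576 * (cub w * (∑ i, z i * sharp w i) + (∑ i, sharp z i * w i) * cub z)
        + 992 * (cub w * (∑ i, sharp z i * w i) + (∑ i, z i * sharp w i) * cub z)
        + 128 * ((∑ i, z i * sharp w i) * (∑ i, sharp z i * w i)) :=
  hK S (fun i => mkD (d i) (ha i) (hl i)) hc z w hz hw

theorem E_inst (hE : StmtE) (S : Type) [CommRing S] (d : Fin 15 → S → S)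
    (ha : ∀ i a b, d i (a + b) = d i a + d i b)
    (hl : ∀ i a b, d i (a * b) = a * d i b + b * d i a)
    (hc : ∀ i j f, d i (d j f) = d j (d i f))
    (z : Fin 15 → S) (hz : ∀ i j, d i (z j) = if i = j then 1 else 0) :
      let D : S → S := fun f => cubOp d (cubOp d f)
      D (e₁ z ^ 6) = 720 ∧ D (e₁ z ^ 4 * e₂ z) = 576 ∧ D (e₁ z ^ 3 * cub z) = 288 ∧
      D (e₁ z ^ 2 * e₂ z ^ 2) = 528 ∧ D (e₁ z * e₂ z * cub z) = 432 ∧ D (e₂ z ^ 3) = 288 ∧
      D (cub z ^ 2) = 720 :=
  hE S (fun i => mkD (d i) (ha i) (hl i)) hc z hz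

theorem val_K (hK : StmtK) :
    ev (cubOp (fun i g => pderiv (Sum.inr i) g) (cubOp (fun i g => pderiv (Sum.inr i) g) bigG)) =
      (48 : ℤ) • e₁ X ^ 6 + (512 : ℤ) • (e₁ X ^ 4 * e₂ X) + (320 : ℤ) • (e₁ X ^ 3 * cub X)
        + (544 : ℤ) • (e₁ X ^ 2 * e₂ X ^ 2) + (3648 : ℤ) • (e₁ X * e₂ X * cub X)
        + (-3648 : ℤ) • cub X ^ 2 := by
  have h1 := K_inst hK (MvPolynomial (Fin 15 ⊕ Fin 15) ℂ) (fun i g => pderiv (Sum.inr i) g)
    (fun i a b => map_add _ a b)
    (fun i a b => by rw [Derivation.leibniz]; simp only [smul_eq_mul])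
    (fun i j f => pderiv_comm _ _ f)
    (fun i => X (Sum.inl i) + X (Sum.inr i))
    (fun i => reflect (fun j => X (Sum.inl j)) i + X (Sum.inr i))
    (by
      intro i j
      rw [map_add, pderiv_X, pderiv_X]
      by_cases h : i = j
      · subst h; simp
      · have h' : (Sum.inr i : Fin 15 ⊕ Fin 15) ≠ Sum.inr j := fun e => h (Sum.inr.inj e)
        simp [h, h'])
    (by
      intro i j
      have h0 : pderiv (Sum.inr i) (reflect (fun j => X (Sum.inl j)) j :
          MvPolynomial (Fin 15 ⊕ Fin 15) ℂ) = 0 := by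
        fin_cases j <;> simp [reflect]
      rw [map_add, h0, pderiv_X, zero_add]
      by_cases h : i = j
      · subst h; simp
      · have h' : (Sum.inr i : Fin 15 ⊕ Fin 15) ≠ Sum.inr j := fun e => h (Sum.inr.inj e)
        simp [h, h'])
  rw [show bigG = cub (fun i => X (Sum.inl i) + X (Sum.inr i)) ^ 2 *
    cub (fun i => reflect (fun j => X (Sum.inl j)) i + X (Sum.inr i)) ^ 2 from rfl, h1]
  have hz : ∀ i : Fin 15, ev (X (Sum.inl i) + X (Sum.inr i)) = X i := by
    intro i
    rw [map_add, ev_inl, ev_inr, add_zero]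
  have e1 : ev (cub (fun i => X (Sum.inl i) + X (Sum.inr i))) = cub X := by
    rw [ev_cub]; simp only [hz]
  have e2 : ev (cub (fun i => reflect (fun j => X (Sum.inl j)) i + X (Sum.inr i))) =
      e₁ X * e₂ X - cub X := by
    rw [ev_cub]; simp only [ev_reflect]; exact cub_reflect X
  have e3 : ev (∑ i, (X (Sum.inl i) + X (Sum.inr i)) *
      sharp (fun i => reflect (fun j => X (Sum.inl j)) i + X (Sum.inr i)) i) =
      e₁ X ^ 3 - 2 * (e₁ X * e₂ X) + 3 * cub X := by
    rw [map_sum, ← sum_sharp_reflect X]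
    refine Finset.sum_congr rfl fun i _ => ?_
    rw [map_mul, hz, ev_sharp]
    simp only [ev_reflect]
  have e4 : ev (∑ i, sharp (fun i => X (Sum.inl i) + X (Sum.inr i)) i *
      (reflect (fun j => X (Sum.inl j)) i + X (Sum.inr i))) =
      e₁ X * e₂ X - 3 * cub X := by
    rw [map_sum, ← sum_sharp X]
    refine Finset.sum_congr rfl fun i _ => ?_
    rw [map_mul, ev_reflect, ev_sharp]
    simp only [hz]
  simp only [map_add ev, map_mul ev, map_pow ev, map_ofNat ev, e1, e2, e3, e4]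
  exact expand (e₁ X) (e₂ X) (cub X)

theorem DD_val (hE : StmtE) :
    DD ((48 : ℤ) • e₁ X ^ 6 + (512 : ℤ) • (e₁ X ^ 4 * e₂ X) + (320 : ℤ) • (e₁ X ^ 3 * cub X)
        + (544 : ℤ) • (e₁ X ^ 2 * e₂ X ^ 2) + (3648 : ℤ) • (e₁ X * e₂ X * cub X)
        + (-3648 : ℤ) • cub X ^ 2) = -341760 := by
  obtain ⟨h1, h2, h3, h4, h5, h6, h7⟩ := E_inst hE (MvPolynomial (Fin 15) ℂ)
    (fun i g => pderiv i g)
    (fun i a b => map_add _ a b)
    (fun i a b => by rw [Derivation.leibniz]; simp only [smul_eq_mul])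
    (fun i j f => pderiv_comm _ _ f) X
    (by
      intro i j
      rw [pderiv_X]
      by_cases h : i = j
      · subst h; simp
      · simp [h])
  have k1 : DD (e₁ X ^ 6) = 720 := h1
  have k2 : DD (e₁ X ^ 4 * e₂ X) = 576 := h2
  have k3 : DD (e₁ X ^ 3 * cub X) = 288 := h3
  have k4 : DD (e₁ X ^ 2 * e₂ X ^ 2) = 528 := h4
  have k5 : DD (e₁ X * e₂ X * cub X) = 432 := h5
  have k7 : DD (cub X ^ 2) = 720 := h7
  simp only [map_add, map_zsmul, k1, k2, k3, k4, k5, k7]
  simp only [zsmul_eq_mul]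
  norm_num

theorem val (hK : StmtK) (hE : StmtE) : StmtVal := by
  unfold StmtVal
  rw [constantCoeff_ev, ev_cubOp, ev_cubOp, val_K hK]
  have h := DD_val hE
  change cubOp (fun i g => pderiv i g) (cubOp (fun i g => pderiv i g) _) = _ at h
  rw [h, map_neg, map_ofNat]

end Pool.Agent.Helper17.GriffCE
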